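import Pool.Agent.helper86.ZD.SpecC

/-!
# Project zd (MP_4467b5_nt): the choice of the power (CPOW)
-/

set_option autoImplicit false

open Complex MeasureTheory

namespace Pool.Agent.ZD

open Pool.Agent.helper84.DM Pool.Agent.helper78.ED Pool.Agent.DH

lemma CPOW_log (L l δ : ℝ) (hδ : 0 < δ) (hδ1 : δ ≤ 1 / 4) (hL : 0 < L)
    (h1 : δ / 2 * L ≤ l) (h2 : l ≤ 13 / 34 * L) :
    ∃ k : ℕ, 1 ≤ k ∧ (k : ℝ) ≤ 3 / δ ∧ 29 / 34 * L ≤ k * l ∧ k * l ≤ 39 / 34 * L := by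
  have hl : 0 < l := lt_of_lt_of_le (by positivity) h1
  have hm1 : ((⌊L / l⌋₊ : ℕ) : ℝ) ≤ L / l := Nat.floor_le (by positivity)
  have hm2 : L / l < (⌊L / l⌋₊ : ℕ) + 1 := Nat.lt_floor_add_one _
  generalize ⌊L / l⌋₊ = m at hm1 hm2
  have hm1' : (m : ℝ) * l ≤ L := by rwa [le_div_iff₀ hl] at hm1
  have hm2' : L < ((m : ℝ) + 1) * l := by rwa [div_lt_iff₀ hl] at hm2
  have hq : L / l ≤ 2 / δ := by
    rw [div_le_div_iff₀ hl hδ]
    nlinarith
  have h1δ : 1 ≤ 1 / δ := by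
    rw [le_div_iff₀ hδ]; linarith
  have h3δ : 3 / δ = 2 / δ + 1 / δ := by ring
  have h2δ : (m : ℝ) ≤ 2 / δ := hm1.trans hq
  by_cases hc : ((m : ℝ) + 1) * l ≤ 39 / 34 * L
  · refine ⟨m + 1, by omega, ?_, ?_, ?_⟩
    · push_cast; linarith
    · push_cast; linarith
    · push_cast; exact hc
  · push Not at hc
    have hm3 : 3 ≤ m := by
      by_contra hlt
      have hm' : (m : ℝ) + 1 ≤ 3 := by
        have : m + 1 ≤ 3 := by omega
        exact_mod_cast this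
      have : ((m : ℝ) + 1) * l ≤ 3 * l := mul_le_mul_of_nonneg_right hm' hl.le
      linarith
    have hm3' : (3 : ℝ) ≤ m := by exact_mod_cast hm3
    refine ⟨m, by omega, ?_, ?_, ?_⟩
    · linarith [div_nonneg zero_le_one hδ.le]
    · have h4 : 3 / 4 * (((m : ℝ) + 1) * l) ≤ m * l := by nlinarith
      nlinarith
    · linarith

theorem CPOW : CPOW_stmt := by
  intro δ hδ hδ1
  refine ⟨(16 : ℝ) ^ (1 / δ), fun T hT N hN1 hN2 => ?_⟩
  have h1T : (1 : ℝ) < (16 : ℝ) ^ (1 / δ) := Real.one_lt_rpow (by norm_num) (by positivity)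
  have hT1 : 1 < T := lt_of_lt_of_le h1T hT
  have hT0 : 0 < T := by linarith
  have hTδ : 16 ≤ T ^ δ := by
    calc (16 : ℝ) = ((16 : ℝ) ^ (1 / δ)) ^ δ := by
          rw [← Real.rpow_mul (by norm_num), one_div_mul_cancel hδ.ne', Real.rpow_one]
      _ ≤ T ^ δ := Real.rpow_le_rpow (by positivity) hT hδ.le
  have hN0 : (0 : ℝ) < N := by linarith
  have hsq : T ^ (δ / 2) * T ^ (δ / 2) = T ^ δ := by
    rw [← Real.rpow_add hT0]; congr 1; ring
  have hpos : 0 < T ^ (δ / 2) := Real.rpow_pos_of_pos hT0 _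
  have h4 : 2 ≤ T ^ (δ / 2) := by nlinarith
  have hN3 : T ^ (δ / 2) ≤ N := by nlinarith
  have hL : 0 < Real.log T := Real.log_pos hT1
  have hl1 : δ / 2 * Real.log T ≤ Real.log N := by
    rw [← Real.log_rpow hT0]
    exact Real.log_le_log hpos hN3
  have hl2 : Real.log N ≤ 13 / 34 * Real.log T := by
    rw [← Real.log_rpow hT0]
    exact Real.log_le_log hN0 hN2
  obtain ⟨k, hk1, hk2, hk3, hk4⟩ := CPOW_log _ _ δ hδ hδ1 hL hl1 hl2
  have hNk : (0 : ℝ) < (N : ℝ) ^ k := pow_pos hN0 k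
  refine ⟨k, hk1, hk2, ?_, ?_⟩
  · rw [← Real.log_le_log_iff (Real.rpow_pos_of_pos hT0 _) hNk, Real.log_rpow hT0, Real.log_pow]
    exact hk3
  · rw [← Real.log_le_log_iff hNk (Real.rpow_pos_of_pos hT0 _), Real.log_rpow hT0, Real.log_pow]
    exact hk4

end Pool.Agent.ZD
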