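import Pool.Agent.helper84.ZD.SpecA

/-!
# Project zd (MP_4467b5_nt): the smooth cut-off (PHS)
-/

set_option autoImplicit false

open Complex MeasureTheory

namespace Pool.Agent.ZD

open Pool.Agent.helper84.DM Pool.Agent.helper78.ED Pool.Agent.DH

lemma PHS_smooth : ContDiff ℝ (⊤ : ℕ∞) Phi := by
  have h1 : ContDiff ℝ (⊤ : ℕ∞) (fun y : ℝ => Real.smoothTransition (2 * y - 1)) :=
    Real.smoothTransition.contDiff.comp ((contDiff_const.mul contDiff_id).sub contDiff_const)
  have h2 : ContDiff ℝ (⊤ : ℕ∞) (fun y : ℝ => Real.smoothTransition ((64 - y) / 32)) :=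
    Real.smoothTransition.contDiff.comp ((contDiff_const.sub contDiff_id).div_const 32)
  exact h1.mul h2

lemma PHS_lo (y : ℝ) (h : y ≤ 1 / 2) : Phi y = 0 := by
  unfold Phi
  rw [Real.smoothTransition.zero_of_nonpos (by linarith), zero_mul]

lemma PHS_hi (y : ℝ) (h : 64 ≤ y) : Phi y = 0 := by
  unfold Phi
  rw [Real.smoothTransition.zero_of_nonpos (x := (64 - y) / 32) (by linarith), mul_zero]

theorem PHS : PHS_stmt := by
  refine ⟨PHS_smooth, ⟨?_, ?_⟩, ?_, ?_, PHS_lo, PHS_hi⟩
  · exact Complex.ofRealCLM.contDiff.comp PHS_smooth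
  · intro x hx
    rcases hx with h | h
    · simp only [PHS_lo x h.le, Complex.ofReal_zero]
    · simp only [PHS_hi x h.le, Complex.ofReal_zero]
  · intro y
    unfold Phi
    have a1 := Real.smoothTransition.nonneg (2 * y - 1)
    have a2 := Real.smoothTransition.nonneg ((64 - y) / 32)
    have b1 := Real.smoothTransition.le_one (2 * y - 1)
    have b2 := Real.smoothTransition.le_one ((64 - y) / 32)
    exact ⟨mul_nonneg a1 a2, mul_le_one₀ b1 a2 b2⟩
  · intro y h1 h2
    unfold Phi
    rw [Real.smoothTransition.one_of_one_le (by linarith),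
      Real.smoothTransition.one_of_one_le (x := (64 - y) / 32) (by linarith), mul_one]

end Pool.Agent.ZD
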